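import Pool.Agent.V7H5.ET.Inf

/-!
# Patterns which force many representations

Let `a i ≤ C (i + 1) ^ h`.  In every large set `R` of indices between `I` and `2 I` there are
boundedly many indices `J` such that bounded shifts of the elements `a i`, `i ∈ J`, produce a number
with `k` representations as a sum of `h` elements.
-/

set_option autoImplicit false

namespace Pool.Agent.V7H5.RP

open Finset
open Pool.Agent.V7H5.ET (rep rep_finite)

theorem rep_ge {A : Set ℕ} {h n k : ℕ} (f : ℕ → Multiset ℕ)
    (hinj : ∀ i < k, ∀ j < k, f i = f j → i = j)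
    (h1 : ∀ j < k, Multiset.card (f j) = h) (h2 : ∀ j < k, ∀ a ∈ f j, a ∈ A)
    (h3 : ∀ j < k, (f j).sum = n) : k ≤ rep A h n := by
  classical
  have hsub : ((((range k).image f : Finset (Multiset ℕ))) : Set (Multiset ℕ)) ⊆
      {s : Multiset ℕ | Multiset.card s = h ∧ (∀ a ∈ s, a ∈ A) ∧ s.sum = n} := by
    intro s hs
    rw [mem_coe, mem_image] at hs
    obtain ⟨j, hj, rfl⟩ := hs
    rw [mem_range] at hj
    exact ⟨h1 j hj, h2 j hj, h3 j hj⟩
  have h4 := Set.ncard_le_ncard hsub (rep_finite A h n)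
  rw [Set.ncard_coe_finset, card_image_of_injOn, card_range] at h4
  · exact h4
  · intro i hi j hj hij
    rw [mem_coe, mem_range] at hi hj
    exact hinj i hi j hj hij

/-- a large family of sets of bounded size contains `k` sets with a private element each -/
theorem exists_private {k h : ℕ} (F : Finset (Finset ℕ)) (hF : ∀ s ∈ F, s.card = h)
    (hcard : 2 ^ (h * k) < F.card) :
    ∃ G ⊆ F, G.card = k ∧ ∃ p : Finset ℕ → ℕ, ∀ s ∈ G, p s ∈ s ∧ ∀ t ∈ G, t ≠ s → p s ∉ t := by
  classical
  set U := F.biUnion id with hU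
  set 𝒞 := F.powerset.filter (fun G => G.biUnion id = U) with h𝒞
  have hne : 𝒞.Nonempty := ⟨F, by rw [h𝒞, mem_filter, mem_powerset]; exact ⟨subset_rfl, rfl⟩⟩
  obtain ⟨G0, hG0, hmin⟩ := exists_min_image 𝒞 card hne
  rw [h𝒞, mem_filter, mem_powerset] at hG0
  obtain ⟨hG0F, hG0U⟩ := hG0
  have hk : k ≤ G0.card := by
    by_contra hcon
    push Not at hcon
    have h1 : U.card ≤ G0.card * h := by
      rw [← hG0U]
      refine card_biUnion_le.trans ?_
      rw [sum_const_nat (m := h) fun s hs => by rw [id]; exact hF s (hG0F hs)]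
    have h2 : F ⊆ U.powerset := by
      intro s hs
      rw [mem_powerset, hU]
      exact subset_biUnion_of_mem id hs
    have h3 := card_le_card h2
    rw [card_powerset] at h3
    have h4 : U.card ≤ h * k := by
      refine h1.trans ?_
      rw [mul_comm]
      exact Nat.mul_le_mul_left _ hcon.le
    have h5 := Nat.pow_le_pow_right (n := 2) (by norm_num) h4
    omega
  have hpriv : ∀ s ∈ G0, ∃ x ∈ s, ∀ t ∈ G0, t ≠ s → x ∉ t := by
    intro s hs
    by_contra hcon
    push Not at hcon
    have h1 : (G0.erase s).biUnion id = U := by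
      rw [← hG0U]
      apply Subset.antisymm
      · exact biUnion_subset_biUnion_of_subset_left _ (erase_subset _ _)
      · intro x hx
        rw [mem_biUnion] at hx ⊢
        obtain ⟨t, ht, hxt⟩ := hx
        by_cases hts : t = s
        · obtain ⟨t', ht', hne', hx'⟩ := hcon x (by rw [← hts]; exact hxt)
          exact ⟨t', mem_erase.2 ⟨hne', ht'⟩, hx'⟩
        · exact ⟨t, mem_erase.2 ⟨hts, ht⟩, hxt⟩
    have h2 := hmin (G0.erase s) (by
      rw [h𝒞, mem_filter, mem_powerset]
      exact ⟨(erase_subset _ _).trans hG0F, h1⟩)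
    rw [card_erase_of_mem hs] at h2
    have h3 : 0 < G0.card := card_pos.2 ⟨s, hs⟩
    omega
  obtain ⟨G, hGG, hGc⟩ := exists_subset_card_eq hk
  choose! p hp using hpriv
  exact ⟨G, hGG.trans hG0F, hGc, p, fun s hs =>
    ⟨(hp s (hGG hs)).1, fun t ht hts => (hp s (hGG hs)).2 t (hGG ht) hts⟩⟩

/-- `J` is a pattern with shifts `ζ` at the number `n` -/
def Pat (a : ℕ → ℕ) (h k W I : ℕ) (R J : Finset ℕ) (ζ : ℕ → ℕ) (n : ℕ) : Prop :=
  J ⊆ R ∧ J.card ≤ h * k ∧ (∀ i ∈ J, ζ i ≤ W) ∧ I ≤ n ∧
    ∀ z : ℕ → ℕ, (∀ i ∈ J, z i = ζ i) → k ≤ rep (Set.range fun i => a i + z i) h n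

/-- the first case: `2 k` elements close together -/
theorem pat_cluster {a : ℕ → ℕ} (ha : StrictMono a) {h k W I : ℕ} (hh : 2 ≤ h) {R : Finset ℕ}
    (hR : R ⊆ Ico I (2 * I)) (e : ℕ → ℕ) (he : ∀ j < 2 * k, e j ∈ R)
    (hmono : ∀ i j, i < j → j < 2 * k → e i < e j) (hk : 1 ≤ k)
    (hW : a (e (2 * k - 1)) ≤ a (e 0) + W) :
    ∃ J ζ n, Pat a h k (W + 2 * k) I R J ζ n := by
  classical
  set N := a (e (2 * k - 1)) with hN
  have hinj : ∀ i < 2 * k, ∀ j < 2 * k, e i = e j → i = j := by
    intro i hi j hj hij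
    rcases lt_trichotomy i j with h1 | h1 | h1
    · exact absurd hij (hmono i j h1 hj).ne
    · exact h1
    · exact absurd hij (hmono j i h1 hi).ne'
  have hle : ∀ j < 2 * k, a (e j) ≤ N := by
    intro j hj
    rw [hN]
    apply ha.monotone
    rcases Nat.lt_or_ge j (2 * k - 1) with h1 | h1
    · exact (hmono _ _ h1 (by omega)).le
    · have : j = 2 * k - 1 := by omega
      rw [this]
  have hge : ∀ j < 2 * k, a (e 0) ≤ a (e j) := by
    intro j hj
    apply ha.monotone
    rcases Nat.eq_zero_or_pos j with h1 | h1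
    · rw [h1]
    · exact (hmono _ _ h1 hj).le
  refine ⟨(range (2 * k)).image e, fun i => ∑ j ∈ range (2 * k),
    if e j = i then N + j - a (e j) else 0, h * N + (2 * k - 1), ?_, ?_, ?_, ?_, ?_⟩
  · intro x hx
    rw [mem_image] at hx
    obtain ⟨j, hj, rfl⟩ := hx
    exact he j (mem_range.1 hj)
  · refine card_image_le.trans ?_
    rw [card_range]
    exact Nat.mul_le_mul_right _ hh
  · have key : ∀ j < 2 * k, (∑ j' ∈ range (2 * k), if e j' = e j then N + j' - a (e j') else 0) =
        N + j - a (e j) := by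
      intro j hj
      rw [sum_eq_single j]
      · rw [if_pos rfl]
      · intro b hb hbj
        rw [if_neg]
        intro h1
        exact hbj (hinj b (mem_range.1 hb) j hj h1)
      · intro h1
        exact absurd (mem_range.2 hj) h1
    intro i hi
    rw [mem_image] at hi
    obtain ⟨j, hj, rfl⟩ := hi
    rw [mem_range] at hj
    show (∑ j' ∈ range (2 * k), if e j' = e j then N + j' - a (e j') else 0) ≤ _
    rw [key j hj]
    have := hge j hj
    omega
  · have h1 : I ≤ a (e 0) := by
      have h2 := hR (he 0 (by omega))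
      rw [mem_Ico] at h2
      exact h2.1.trans (ha.le_apply)
    have h2 : a (e 0) ≤ N := hle 0 (by omega)
    nlinarith
  · intro z hz
    have hz' : ∀ j < 2 * k, a (e j) + z (e j) = N + j := by
      intro j hj
      rw [hz (e j) (mem_image.2 ⟨j, mem_range.2 hj, rfl⟩)]
      have : (∑ j' ∈ range (2 * k), if e j' = e j then N + j' - a (e j') else 0) =
          N + j - a (e j) := by
        rw [sum_eq_single j]
        · rw [if_pos rfl]
        · intro b hb hbj
          rw [if_neg]
          intro h1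
          exact hbj (hinj b (mem_range.1 hb) j hj h1)
        · intro h1
          exact absurd (mem_range.2 hj) h1
      simp only [this]
      have := hle j hj
      omega
    have hmem : ∀ j < 2 * k, N + j ∈ Set.range fun i => a i + z i := fun j hj =>
      ⟨e j, hz' j hj⟩
    refine rep_ge (fun j => (N + j) ::ₘ (N + (2 * k - 1 - j)) ::ₘ Multiset.replicate (h - 2) N)
      ?_ ?_ ?_ ?_
    · intro i hi j hj hij
      have h1 : ((N + i) ::ₘ {N + (2 * k - 1 - i)} : Multiset ℕ) + Multiset.replicate (h - 2) N =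
          ((N + j) ::ₘ {N + (2 * k - 1 - j)}) + Multiset.replicate (h - 2) N := by
        simpa using hij
      have h2 := add_right_cancel h1
      have h3 : N + i ∈ ((N + j) ::ₘ {N + (2 * k - 1 - j)} : Multiset ℕ) := by
        rw [← h2]
        exact Multiset.mem_cons_self _ _
      rw [Multiset.mem_cons, Multiset.mem_singleton] at h3
      omega
    · intro j hj
      simp only [Multiset.card_cons, Multiset.card_replicate]
      omega
    · intro j hj x hx
      simp only [Multiset.mem_cons, Multiset.mem_replicate] at hx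
      rcases hx with rfl | rfl | ⟨-, rfl⟩
      · exact hmem j (by omega)
      · exact hmem _ (by omega)
      · exact hmem 0 (by omega)
    · intro j hj
      simp only [Multiset.sum_cons, Multiset.sum_replicate, smul_eq_mul]
      obtain ⟨g, rfl⟩ : ∃ g, h = g + 2 := ⟨h - 2, by omega⟩
      rw [Nat.add_sub_cancel, add_mul]
      omega

/-- the second case: many elements far apart -/
theorem pat_separated {a : ℕ → ℕ} (ha : StrictMono a) {h k W V I m : ℕ} (hh : 2 ≤ h) (hk : 1 ≤ k)
    {R : Finset ℕ} (hR : R ⊆ Ico I (2 * I)) (s : ℕ → ℕ) (hs : ∀ t < m, s t ∈ R)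
    (hsep : ∀ t t', t < t' → t' < m → a (s t) + W < a (s t')) (hW : 0 < W)
    (hV : ∀ t < m, h * a (s t) ≤ V) (hcard : (V / W + 1) * 2 ^ (h * k) < m.choose h) :
    ∃ J ζ n, Pat a h k W I R J ζ n := by
  classical
  set σ : Finset ℕ → ℕ := fun F => ∑ t ∈ F, a (s t) with hσ
  have hsum : ∀ F ∈ powersetCard h (range m), σ F ≤ V := by
    intro F hF
    rw [mem_powersetCard] at hF
    obtain ⟨hF1, hF2⟩ := hF
    have h0 : 0 < h := by omega
    have h1 : h * σ F ≤ h * V := by
      rw [hσ, mul_sum]
      refine (sum_le_card_nsmul F _ V fun t ht => hV t (mem_range.1 (hF1 ht))).trans ?_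
      rw [hF2, smul_eq_mul]
    exact Nat.le_of_mul_le_mul_left h1 h0
  obtain ⟨y, -, hy⟩ := exists_lt_card_fiber_of_mul_lt_card_of_maps_to
    (s := powersetCard h (range m)) (t := range (V / W + 1)) (f := fun F => σ F / W)
    (n := 2 ^ (h * k)) (fun F hF => by
      rw [mem_range]
      exact Nat.lt_succ_of_le (Nat.div_le_div_right (hsum F hF)))
    (by rw [card_range, card_powersetCard, card_range]; exact hcard)
  obtain ⟨G, hG, hGc, p, hp⟩ := exists_private (k := k) (h := h) _ (fun F hF => by
    rw [mem_filter, mem_powersetCard] at hF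
    exact hF.1.2) hy
  have hGm : ∀ F ∈ G, F ⊆ range m := fun F hF => by
    have := hG hF
    rw [mem_filter, mem_powersetCard] at this
    exact this.1.1
  have hGh : ∀ F ∈ G, F.card = h := fun F hF => by
    have := hG hF
    rw [mem_filter, mem_powersetCard] at this
    exact this.1.2
  have hGy : ∀ F ∈ G, y * W ≤ σ F ∧ σ F ≤ (y + 1) * W := fun F hF => by
    have := hG hF
    rw [mem_filter] at this
    have h1 := this.2
    have h2 := Nat.div_add_mod (σ F) W
    have h3 := Nat.mod_lt (σ F) hW
    rw [h1, Nat.mul_comm] at h2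
    constructor
    · omega
    · rw [add_mul, one_mul]
      omega
  set n0 := (y + 1) * W with hn0
  have hinj : ∀ t < m, ∀ t' < m, s t = s t' → t = t' := by
    intro t ht t' ht' hst
    rcases lt_trichotomy t t' with h1 | h1 | h1
    · have := hsep t t' h1 ht'
      rw [hst] at this
      omega
    · exact h1
    · have := hsep t' t h1 ht
      rw [hst] at this
      omega
  set ζ : ℕ → ℕ := fun i => ∑ F ∈ G, if s (p F) = i then n0 - σ F else 0 with hζ
  have hζF : ∀ F ∈ G, ∀ t ∈ F, ζ (s t) = if p F = t then n0 - σ F else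
      ζ (s t) := by
    intro F hF t ht
    split_ifs with h1
    · rw [hζ]
      simp only
      rw [sum_eq_single F]
      · rw [if_pos (by rw [h1])]
      · intro F' hF' hne
        rw [if_neg]
        intro h2
        have h3 := hinj _ (mem_range.1 (hGm F' hF' (hp F' hF').1)) _
          (mem_range.1 (hGm F hF ht)) h2
        exact (hp F' hF').2 F hF hne.symm (by rw [h3]; exact ht)
      · intro h2
        exact absurd hF h2
    · rfl
  have hζ0 : ∀ F ∈ G, ∀ t ∈ F, p F ≠ t → (∀ F' ∈ G, p F' ≠ t) := by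
    intro F hF t ht hne F' hF' h1
    by_cases h2 : F' = F
    · rw [h2] at h1; exact hne h1
    · exact (hp F' hF').2 F hF (Ne.symm h2) (by rw [h1]; exact ht)
  have hζ1 : ∀ F ∈ G, ∀ t ∈ F, ζ (s t) = if p F = t then n0 - σ F else 0 := by
    intro F hF t ht
    by_cases h1 : p F = t
    · rw [hζF F hF t ht, if_pos h1, if_pos h1]
    · rw [if_neg h1, hζ]
      simp only
      apply sum_eq_zero
      intro F' hF'
      rw [if_neg]
      intro h2
      have h3 := hinj _ (mem_range.1 (hGm F' hF' (hp F' hF').1)) _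
          (mem_range.1 (hGm F hF ht)) h2
      exact hζ0 F hF t ht h1 F' hF' h3
  have hζW : ∀ F ∈ G, ∀ t ∈ F, ζ (s t) ≤ W := by
    intro F hF t ht
    rw [hζ1 F hF t ht]
    split_ifs
    · have h1 := (hGy F hF).1
      rw [hn0, add_mul, one_mul]
      omega
    · omega
  refine ⟨(G.biUnion id).image s, ζ, n0, ?_, ?_, ?_, ?_, ?_⟩
  · intro x hx
    rw [mem_image] at hx
    obtain ⟨t, ht, rfl⟩ := hx
    rw [mem_biUnion] at ht
    obtain ⟨F, hF, ht⟩ := ht
    exact hs t (mem_range.1 (hGm F hF ht))
  · refine card_image_le.trans ?_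
    refine card_biUnion_le.trans ?_
    rw [sum_const_nat (m := h) fun F hF => by rw [id]; exact hGh F hF, hGc, mul_comm]
  · intro i hi
    rw [mem_image] at hi
    obtain ⟨t, ht, rfl⟩ := hi
    rw [mem_biUnion] at ht
    obtain ⟨F, hF, ht⟩ := ht
    exact hζW F hF t ht
  · have hGne : G.Nonempty := by rw [← card_pos, hGc]; omega
    obtain ⟨F, hF⟩ := hGne
    have h1 := (hGy F hF).2
    have h2 := hp F hF
    have h3 : a (s (p F)) ≤ σ F := by
      rw [hσ]
      exact single_le_sum (f := fun t => a (s t)) (fun _ _ => Nat.zero_le _) h2.1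
    have h4 := hR (hs (p F) (mem_range.1 (hGm F hF h2.1)))
    rw [mem_Ico] at h4
    have h5 := ha.le_apply (x := s (p F))
    omega
  · intro z hz
    have hzF : ∀ F ∈ G, ∀ t ∈ F, z (s t) = ζ (s t) := fun F hF t ht =>
      hz (s t) (mem_image.2 ⟨t, mem_biUnion.2 ⟨F, hF, ht⟩, rfl⟩)
    set g : ℕ → ℕ := fun t => a (s t) + z (s t) with hg
    have hginj : ∀ F ∈ G, ∀ t ∈ F, ∀ F' ∈ G, ∀ t' ∈ F', g t = g t' → t = t' := by
      have aux : ∀ F ∈ G, ∀ t ∈ F, ∀ F' ∈ G, ∀ t' ∈ F', t < t' → g t < g t' := by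
        intro F hF t ht F' hF' t' ht' htt
        have h1 := hsep t t' htt (mem_range.1 (hGm F' hF' ht'))
        have h2 := hζW F hF t ht
        rw [← hzF F hF t ht] at h2
        show a (s t) + z (s t) < a (s t') + z (s t')
        omega
      intro F hF t ht F' hF' t' ht' hgg
      rcases lt_trichotomy t t' with h1 | h1 | h1
      · exact absurd hgg (aux F hF t ht F' hF' t' ht' h1).ne
      · exact h1
      · exact absurd hgg (aux F' hF' t' ht' F hF t ht h1).ne'
    have hMinj : ∀ F ∈ G, ∀ F' ∈ G, F.val.map g = F'.val.map g → F = F' := by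
      have aux : ∀ F ∈ G, ∀ F' ∈ G, F.val.map g = F'.val.map g → F ⊆ F' := by
        intro F hF F' hF' hM t ht
        have h1 : g t ∈ F'.val.map g := by
          rw [← hM]
          exact Multiset.mem_map_of_mem g ht
        rw [Multiset.mem_map] at h1
        obtain ⟨t', ht', h2⟩ := h1
        have h3 := hginj F' hF' t' ht' F hF t ht h2
        rw [← h3]
        exact ht'
      intro F hF F' hF' hM
      exact Subset.antisymm (aux F hF F' hF' hM) (aux F' hF' F hF hM.symm)
    obtain ⟨φ, hφ⟩ : ∃ φ : ℕ → Finset ℕ, (∀ j < k, φ j ∈ G) ∧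
        ∀ i < k, ∀ j < k, φ i = φ j → i = j := by
      let e := G.equivFinOfCardEq hGc
      refine ⟨fun j => if hj : j < k then (e.symm ⟨j, hj⟩ : Finset ℕ) else ∅, ?_, ?_⟩
      · intro j hj
        simp only [dif_pos hj]
        exact (e.symm ⟨j, hj⟩).2
      · intro i hi j hj hij
        simp only [dif_pos hi, dif_pos hj] at hij
        have h1 := e.symm.injective (Subtype.ext hij)
        exact congrArg Fin.val h1
    refine rep_ge (fun j => (φ j).val.map g) ?_ ?_ ?_ ?_
    · intro i hi j hj hij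
      exact hφ.2 i hi j hj (hMinj _ (hφ.1 i hi) _ (hφ.1 j hj) hij)
    · intro j hj
      rw [Multiset.card_map]
      exact hGh _ (hφ.1 j hj)
    · intro j hj x hx
      rw [Multiset.mem_map] at hx
      obtain ⟨t, -, rfl⟩ := hx
      exact ⟨s t, rfl⟩
    · intro j hj
      have hF := hφ.1 j hj
      have h1 : ((φ j).val.map g).sum = ∑ t ∈ φ j, g t := rfl
      rw [h1, hg, sum_add_distrib]
      have h2 : ∑ t ∈ φ j, z (s t) = n0 - σ (φ j) := by
        rw [sum_congr rfl fun t ht => (hzF _ hF t ht).trans (hζ1 _ hF t ht), sum_ite_eq,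
          if_pos (hp _ hF).1]
      rw [h2]
      have h3 := (hGy _ hF).2
      show σ (φ j) + _ = _
      omega

end Pool.Agent.V7H5.RP
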