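import Pool.Agent.V7H5.RP.Comb

/-!
# Patterns exist, and many disjoint ones
-/

set_option autoImplicit false

namespace Pool.Agent.V7H5.RP

open Finset
open Pool.Agent.V7H5.ET (rep rep_finite)

theorem Pat.mono {a : ℕ → ℕ} {h k W W' I : ℕ} {R R' J : Finset ℕ} {ζ : ℕ → ℕ} {n : ℕ}
    (hp : Pat a h k W I R J ζ n) (hW : W ≤ W') (hR : R ⊆ R') : Pat a h k W' I R' J ζ n :=
  ⟨hp.1.trans hR, hp.2.1, fun i hi => (hp.2.2.1 i hi).trans hW, hp.2.2.2.1, hp.2.2.2.2⟩

theorem pow_le_choose {m h : ℕ} (hm : 2 * h ≤ m) :
    m ^ h ≤ 2 ^ h * h.factorial * m.choose h := by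
  have h1 : (m + 1 - h) ^ h ≤ h.factorial * m.choose h := by
    rw [← Nat.descFactorial_eq_factorial_mul_choose]
    exact Nat.pow_sub_le_descFactorial m h
  have h2 : m ^ h ≤ (2 * (m + 1 - h)) ^ h := Nat.pow_le_pow_left (by omega) h
  rw [mul_pow] at h2
  refine h2.trans ?_
  rw [mul_assoc]
  exact Nat.mul_le_mul_left _ h1

/-- the size of the shifts -/
def width (h k C : ℕ) : ℕ :=
  2 * 2 ^ (h * k) * (h * (C + 1) * (32 * k) ^ h * h.factorial) + 2 * k

theorem exists_pat (h k C : ℕ) (hh : 2 ≤ h) (hk : 1 ≤ k) :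
    ∃ I0 : ℕ, ∀ a : ℕ → ℕ, StrictMono a → (∀ i, a i ≤ C * (i + 1) ^ h) → ∀ I ≥ I0,
      ∀ R ⊆ Ico I (2 * I), I ≤ 2 * R.card → ∃ J ζ n, Pat a h k (width h k C) I R J ζ n := by
  classical
  set K1 := 2 ^ (h * k) with hK1
  set D := h * (C + 1) * (32 * k) ^ h * h.factorial with hD
  set W0 := 2 * K1 * D with hW0
  have hK1pos : 0 < K1 := by positivity
  have hDpos : 0 < D := by
    rw [hD]
    have : 0 < h.factorial := h.factorial_pos
    have : 0 < (32 * k) ^ h := by positivity
    positivity
  have hW0pos : 0 < W0 := by positivity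
  set m0 := 2 ^ h * h.factorial * (2 * K1 + 1) + 2 * h with hm0
  have hwidth : width h k C = W0 + 2 * k := rfl
  rw [hwidth]
  refine ⟨4 * k * (m0 + 1), fun a ha hC I hI R hR hcard => ?_⟩
  set r := R.card with hr
  set m := r / (2 * k) with hm
  have h1 : 2 * k * m ≤ r := Nat.mul_div_le r (2 * k)
  have h2 : r < 2 * k * (m + 1) := Nat.lt_mul_div_succ r (by omega)
  have h3 : m0 < m := by
    have h4 : 4 * k * (m0 + 1) < 4 * k * (m + 1) := by
      calc 4 * k * (m0 + 1) ≤ I := hI
        _ ≤ 2 * r := hcard
        _ < 2 * (2 * k * (m + 1)) := by omega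
        _ = 4 * k * (m + 1) := by ring
    have h5 := Nat.lt_of_mul_lt_mul_left h4
    omega
  -- the enumeration of `R`
  set e : ℕ → ℕ := fun j => if hj : j < r then R.orderEmbOfFin hr.symm ⟨j, hj⟩ else 0 with he
  have heR : ∀ j < r, e j ∈ R := by
    intro j hj
    rw [he]
    simp only [dif_pos hj]
    exact R.orderEmbOfFin_mem _ _
  have hemono : ∀ i j, i < j → j < r → e i < e j := by
    intro i j hij hj
    rw [he]
    simp only [dif_pos hj, dif_pos (hij.trans hj)]
    exact (R.orderEmbOfFin hr.symm).strictMono hij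
  have hemono' : ∀ i j, i ≤ j → j < r → e i ≤ e j := by
    intro i j hij hj
    rcases hij.eq_or_lt with h4 | h4
    · rw [h4]
    · exact (hemono i j h4 hj).le
  have hblock : ∀ t < m, 2 * k * t + 2 * k ≤ r := by
    intro t ht
    calc 2 * k * t + 2 * k = 2 * k * (t + 1) := by ring
      _ ≤ 2 * k * m := Nat.mul_le_mul_left _ ht
      _ ≤ r := h1
  by_cases hcase : ∃ t < m, a (e (2 * k * t + (2 * k - 1))) ≤ a (e (2 * k * t)) + W0
  · obtain ⟨t, ht, hle⟩ := hcase
    have hb := hblock t ht
    exact pat_cluster ha hh hR (fun j => e (2 * k * t + j))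
      (fun j hj => heR _ (by omega)) (fun i j hij hj => hemono _ _ (by omega) (by omega)) hk
      (by simpa using hle)
  · push Not at hcase
    have hVa : ∀ t < m, h * a (e (2 * k * t)) ≤ h * C * (2 * I) ^ h := by
      intro t ht
      have hb := hblock t ht
      have h4 := hR (heR (2 * k * t) (by omega))
      rw [mem_Ico] at h4
      rw [mul_assoc h C]
      apply Nat.mul_le_mul_left
      refine (hC _).trans ?_
      apply Nat.mul_le_mul_left
      exact Nat.pow_le_pow_left (by omega) h
    have hpc : m ^ h ≤ 2 ^ h * h.factorial * m.choose h := pow_le_choose (by omega)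
    have hVD : h * C * (2 * I) ^ h ≤ D * m.choose h := by
      have h4 : 2 * I ≤ 16 * k * m := by
        have h5 : I < 4 * k * (m + 1) := by
          calc I ≤ 2 * r := hcard
            _ < 2 * (2 * k * (m + 1)) := by omega
            _ = 4 * k * (m + 1) := by ring
        have h6 : 4 * k * (m + 1) ≤ 8 * k * m := by
          calc 4 * k * (m + 1) ≤ 4 * k * (2 * m) := Nat.mul_le_mul_left _ (by omega)
            _ = 8 * k * m := by ring
        have h7 : 16 * k * m = 2 * (8 * k * m) := by ring
        omega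
      calc h * C * (2 * I) ^ h ≤ h * C * (16 * k * m) ^ h :=
            Nat.mul_le_mul_left _ (Nat.pow_le_pow_left h4 h)
        _ = h * C * (16 * k) ^ h * m ^ h := by rw [mul_pow]; ring
        _ ≤ h * C * (16 * k) ^ h * (2 ^ h * h.factorial * m.choose h) :=
            Nat.mul_le_mul_left _ hpc
        _ = h * C * (32 * k) ^ h * h.factorial * m.choose h := by
            have : (32 * k) ^ h = (16 * k) ^ h * 2 ^ h := by
              rw [← mul_pow]
              congr 1
              ring
            rw [this]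
            ring
        _ ≤ D * m.choose h := by
            apply Nat.mul_le_mul_right
            rw [hD]
            apply Nat.mul_le_mul_right
            apply Nat.mul_le_mul_right
            apply Nat.mul_le_mul_left
            omega
    have hch : 2 * K1 < m.choose h := by
      have h4 : 2 ^ h * h.factorial * (2 * K1 + 1) ≤ 2 ^ h * h.factorial * m.choose h := by
        calc 2 ^ h * h.factorial * (2 * K1 + 1) ≤ m := by omega
          _ ≤ m ^ h := Nat.le_self_pow (by omega) m
          _ ≤ _ := hpc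
      have h5 : 0 < 2 ^ h * h.factorial := by
        have := h.factorial_pos
        positivity
      exact Nat.le_of_mul_le_mul_left h4 h5
    obtain ⟨J, ζ, n, hp⟩ := pat_separated ha (h := h) (k := k) (W := W0)
      (V := h * C * (2 * I) ^ h) (I := I) (m := m) hh hk hR (fun t => e (2 * k * t))
      (fun t ht => heR _ (by have := hblock t ht; omega))
      (fun t t' htt ht' => by
        have hb := hblock t' ht'
        have h4 := hcase t (htt.trans ht')
        refine h4.trans_le (ha.monotone (hemono' _ _ ?_ (by omega)))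
        have h5 : 2 * k * (t + 1) ≤ 2 * k * t' := Nat.mul_le_mul_left _ htt
        have h6 : 2 * k * (t + 1) = 2 * k * t + 2 * k := by ring
        omega)
      hW0pos hVa (by
        set q := h * C * (2 * I) ^ h / W0 with hq
        have h4 : q * W0 ≤ D * m.choose h := (Nat.div_mul_le_self _ _).trans hVD
        have h5 : 2 * K1 * q ≤ m.choose h := by
          refine Nat.le_of_mul_le_mul_left (c := D) ?_ hDpos
          calc D * (2 * K1 * q) = q * W0 := by rw [hW0]; ring
            _ ≤ D * m.choose h := h4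
        have h6 : (q + 1) * K1 * 2 = 2 * K1 * q + 2 * K1 := by ring
        show (q + 1) * K1 < m.choose h
        omega)
    exact ⟨J, ζ, n, hp.mono (Nat.le_add_right _ _) subset_rfl⟩

/-- many disjoint patterns -/
theorem exists_pats (h k C : ℕ) (hh : 2 ≤ h) (hk : 1 ≤ k) :
    ∃ I0 : ℕ, ∀ a : ℕ → ℕ, StrictMono a → (∀ i, a i ≤ C * (i + 1) ^ h) → ∀ I ≥ I0,
      ∀ T : ℕ, 2 * (h * k) * T ≤ I → ∃ (J : ℕ → Finset ℕ) (ζ : ℕ → ℕ → ℕ) (n : ℕ → ℕ),
        (∀ t < T, Pat a h k (width h k C) I (Ico I (2 * I)) (J t) (ζ t) (n t)) ∧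
        ∀ s t, s < t → t < T → Disjoint (J s) (J t) := by
  classical
  obtain ⟨I0, hW⟩ := exists_pat h k C hh hk
  refine ⟨I0, fun a ha hC I hI T => ?_⟩
  induction T with
  | zero =>
    intro _
    exact ⟨fun _ => ∅, fun _ _ => 0, fun _ => 0, fun t ht => absurd ht (Nat.not_lt_zero t),
      fun s t _ ht => absurd ht (Nat.not_lt_zero t)⟩
  | succ T ih =>
    intro hT
    have hT' : 2 * (h * k) * T ≤ I := by
      refine le_trans (Nat.mul_le_mul_left _ (Nat.le_succ T)) hT
    obtain ⟨J, ζ, n, h1, h2⟩ := ih hT'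
    set U := (range T).biUnion J with hU
    have hUc : U.card ≤ T * (h * k) := by
      refine card_biUnion_le.trans ?_
      refine (sum_le_card_nsmul _ _ (h * k) fun t ht => (h1 t (mem_range.1 ht)).2.1).trans ?_
      rw [card_range, smul_eq_mul]
    have hRc : I ≤ 2 * (Ico I (2 * I) \ U).card := by
      have h3 := le_card_sdiff U (Ico I (2 * I))
      rw [Nat.card_Ico] at h3
      have h4 : 2 * (h * k) * T = 2 * (T * (h * k)) := by ring
      omega
    obtain ⟨J', ζ', n', hp⟩ := hW a ha hC I hI (Ico I (2 * I) \ U) sdiff_subset hRc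
    have hdisj : ∀ s < T, Disjoint (J s) J' := by
      intro s hs
      rw [disjoint_left]
      intro x hx hx'
      have h3 := hp.1 hx'
      rw [mem_sdiff] at h3
      exact h3.2 (mem_biUnion.2 ⟨s, mem_range.2 hs, hx⟩)
    refine ⟨fun t => if t = T then J' else J t, fun t => if t = T then ζ' else ζ t,
      fun t => if t = T then n' else n t, ?_, ?_⟩
    · intro t ht
      by_cases h3 : t = T
      · simp only [h3, if_true]
        exact hp.mono le_rfl sdiff_subset
      · simp only [h3, if_false]
        exact h1 t (by omega)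
    · intro s t hst ht
      have h3 : s ≠ T := by omega
      by_cases h4 : t = T
      · simp only [h3, h4, if_true, if_false]
        exact hdisj s (by omega)
      · simp only [h3, h4, if_false]
        exact h2 s t hst (by omega)

end Pool.Agent.V7H5.RP
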