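import Pool.Agent.V7H5.RP.Exists
import Pool.Agent.Y940.NP.Prob

/-!
# Random perturbations of sets of order `h`
-/

set_option autoImplicit false

open Finset Filter MeasureTheory ProbabilityTheory

namespace Pool.Agent.V7H5.RP

open Pool.Agent.V7H5.ET (rep rep_finite)

variable {Ω : Type} [MeasurableSpace Ω] {μ : Measure Ω}

/-- a set with `α i ≤ C (i + 1) ^ h` after a random perturbation -/
theorem perturbed [IsProbabilityMeasure μ] {h k C : ℕ} (hh : 2 ≤ h) (hk : 1 ≤ k)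
    (α : ℕ → ℕ) (hα : StrictMono α) (hC : ∀ i, α i ≤ C * (i + 1) ^ h)
    (Z : ℕ → Ω → ℕ) (hZ : ∀ i, Measurable (Z i)) (hind : iIndepFun Z μ)
    (hpr : ∀ᶠ i : ℕ in atTop, ∀ z ≤ width h k C,
      (i : ℝ) ^ (-(1 / (4 * (h * k : ℕ))) : ℝ) ≤ μ.real {ω | Z i ω = z}) :
    ∀ᵐ ω ∂μ, ∀ᶠ m : ℕ in atTop, ∃ n ≥ m, k ≤ rep (Set.range fun i => α i + Z i ω) h n := by
  obtain ⟨I0, hW⟩ := exists_pats h k C hh hk
  obtain ⟨i₁, hi₁⟩ := eventually_atTop.1 hpr
  set b : ℕ := h * k with hb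
  have hb1 : 1 ≤ b := by
    rw [hb]
    exact Nat.mul_pos (by omega) hk
  have hb' : (1 : ℝ) ≤ b := by exact_mod_cast hb1
  have hx : ∀ I : ℕ, ∃ (J : ℕ → Finset ℕ) (ζ : ℕ → ℕ → ℕ) (n : ℕ → ℕ), I0 ≤ I →
      (∀ t < I / (2 * b), Pat α h k (width h k C) I (Ico I (2 * I)) (J t) (ζ t) (n t)) ∧
      ∀ s t, s < t → t < I / (2 * b) → Disjoint (J s) (J t) := by
    intro I
    by_cases hI : I0 ≤ I
    · obtain ⟨J, ζ, n, h⟩ := hW α hα hC I hI (I / (2 * b)) (Nat.mul_div_le I (2 * b))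
      exact ⟨J, ζ, n, fun _ => h⟩
    · exact ⟨fun _ => ∅, fun _ _ => 0, fun _ => 0, fun h => absurd h hI⟩
  choose J ζ n hJ using hx
  set bad : ℕ → Set Ω := fun I => {ω | ∀ t < I / (2 * b), ¬ ∀ i ∈ J I t, Z i ω = ζ I t i}
    with hbad
  -- a lower bound for large `I`
  have hpow : Tendsto (fun N : ℕ => (N : ℝ) ^ (1 / 4 : ℝ)) atTop atTop :=
    (tendsto_rpow_atTop (by norm_num)).comp tendsto_natCast_atTop_atTop
  obtain ⟨i₂, hi₂⟩ := eventually_atTop.1 (hpow.eventually_ge_atTop (12 * (b : ℝ)))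
  set i₀ := max (max (max i₁ i₂) (4 * b)) I0 with hi₀
  have hbound : ∀ I, i₀ ≤ I → μ (bad I) ≤ ENNReal.ofReal (24 / (I : ℝ) ^ 2) := by
    intro I hI
    have hI1 : i₁ ≤ I := (le_max_left _ _).trans ((le_max_left _ _).trans
      ((le_max_left _ _).trans hI))
    have hI2 : i₂ ≤ I := (le_max_right _ _).trans ((le_max_left _ _).trans
      ((le_max_left _ _).trans hI))
    have hI3 : 4 * b ≤ I := (le_max_right _ _).trans ((le_max_left _ _).trans hI)
    have hI4 : I0 ≤ I := (le_max_right _ _).trans hI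
    have hI0 : (0 : ℝ) < I := by
      have : 0 < I := by omega
      exact_mod_cast this
    obtain ⟨hJ1, hJ2⟩ := hJ I hI4
    set T := I / (2 * b) with hT
    have hTlow : (I : ℝ) / (4 * b) ≤ T := by
      have h1 : I < 2 * b * (T + 1) := Nat.lt_mul_div_succ I (by omega)
      have h2 : (I : ℝ) < 2 * b * (T + 1) := by exact_mod_cast h1
      have h3 : 2 ≤ T := by
        rw [hT, Nat.le_div_iff_mul_le (by omega)]
        linarith
      have h4 : (2 : ℝ) ≤ T := by exact_mod_cast h3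
      rw [div_le_iff₀ (by positivity)]
      nlinarith
    have hp : ∀ t < T, (3 * I : ℝ) ^ (-(1 / 4) : ℝ) ≤
        ∏ i ∈ J I t, μ.real (Z i ⁻¹' {ζ I t i}) := by
      intro t ht
      obtain ⟨h2, h1, h3, _, _⟩ := hJ1 t ht
      have h2' : ∀ i ∈ J I t, I ≤ i ∧ i < 2 * I := fun i hi => by
        have := h2 hi
        rwa [mem_Ico] at this
      have h4 : ∀ i ∈ J I t, (3 * I : ℝ) ^ (-(1 / (4 * b)) : ℝ) ≤
          μ.real (Z i ⁻¹' {ζ I t i}) := by
        intro i hi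
        refine le_trans ?_ (hi₁ i (hI1.trans (h2' i hi).1) _ (h3 i hi))
        have h5 : (0 : ℝ) < i := by
          have : 0 < i := by have := (h2' i hi).1; omega
          exact_mod_cast this
        refine Real.rpow_le_rpow_of_nonpos h5 ?_ (by
          rw [Left.neg_nonpos_iff]; positivity)
        have h6 : (i : ℝ) < 2 * I := by exact_mod_cast (h2' i hi).2
        linarith
      have h6 : (3 * I : ℝ) ^ (-(1 / (4 * b)) : ℝ) ≤ 1 := by
        refine Real.rpow_le_one_of_one_le_of_nonpos ?_ (by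
          rw [Left.neg_nonpos_iff]; positivity)
        have : (1 : ℝ) ≤ I := by exact_mod_cast (by omega : 1 ≤ I)
        linarith
      have h7 : (0 : ℝ) ≤ (3 * I : ℝ) ^ (-(1 / (4 * b)) : ℝ) := by positivity
      calc (3 * I : ℝ) ^ (-(1 / 4) : ℝ)
          = ((3 * I : ℝ) ^ (-(1 / (4 * b)) : ℝ)) ^ b := by
            rw [← Real.rpow_natCast, ← Real.rpow_mul (by positivity)]
            congr 1
            field_simp
        _ ≤ ((3 * I : ℝ) ^ (-(1 / (4 * b)) : ℝ)) ^ (J I t).card :=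
            pow_le_pow_of_le_one h7 h6 h1
        _ = ∏ i ∈ J I t, (3 * I : ℝ) ^ (-(1 / (4 * b)) : ℝ) := by rw [prod_const]
        _ ≤ _ := prod_le_prod (fun _ _ => h7) h4
    have h1 := Pool.Agent.Y940.NP.no_pattern Z hZ hind T (J I) (ζ I) hJ2 _ hp
    -- the exponent
    have h2 : Real.sqrt I ≤ (3 * I : ℝ) ^ (-(1 / 4) : ℝ) * T := by
      have h3 : (3 * I : ℝ) ^ (-(1 / 4) : ℝ) = 1 / (3 * I : ℝ) ^ (1 / 4 : ℝ) := by
        rw [Real.rpow_neg (by positivity), inv_eq_one_div]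
      have h4 : (3 * I : ℝ) ^ (1 / 4 : ℝ) ≤ 3 * (I : ℝ) ^ (1 / 4 : ℝ) := by
        rw [Real.mul_rpow (by norm_num) (by positivity)]
        gcongr
        calc (3 : ℝ) ^ (1 / 4 : ℝ) ≤ (3 : ℝ) ^ (1 : ℝ) :=
              Real.rpow_le_rpow_of_exponent_le (by norm_num) (by norm_num)
          _ = 3 := Real.rpow_one 3
      have h5 : 12 * (b : ℝ) ≤ (I : ℝ) ^ (1 / 4 : ℝ) := hi₂ I hI2
      have h6 : (I : ℝ) = Real.sqrt I * ((I : ℝ) ^ (1 / 4 : ℝ) * (I : ℝ) ^ (1 / 4 : ℝ)) := by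
        rw [Real.sqrt_eq_rpow, ← Real.rpow_add hI0, ← Real.rpow_add hI0]
        norm_num
      have hq : (0 : ℝ) < (I : ℝ) ^ (1 / 4 : ℝ) := by positivity
      rw [h3, div_mul_eq_mul_div, one_mul, le_div_iff₀ (by positivity)]
      refine le_trans ?_ hTlow
      rw [le_div_iff₀ (by positivity)]
      calc Real.sqrt I * (3 * I : ℝ) ^ (1 / 4 : ℝ) * (4 * b)
          ≤ Real.sqrt I * (3 * (I : ℝ) ^ (1 / 4 : ℝ)) * (4 * b) := by gcongr
        _ = Real.sqrt I * (I : ℝ) ^ (1 / 4 : ℝ) * (12 * b) := by ring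
        _ ≤ Real.sqrt I * (I : ℝ) ^ (1 / 4 : ℝ) * (I : ℝ) ^ (1 / 4 : ℝ) := by gcongr
        _ = I := by rw [mul_assoc, ← h6]
    have h3 : Real.exp (-((3 * I : ℝ) ^ (-(1 / 4) : ℝ) * T)) ≤ 24 / (I : ℝ) ^ 2 := by
      have h4 : Real.exp (-((3 * I : ℝ) ^ (-(1 / 4) : ℝ) * T)) ≤ Real.exp (-Real.sqrt I) :=
        Real.exp_le_exp.2 (by linarith)
      refine h4.trans ?_
      have h5 := Real.pow_div_factorial_le_exp (x := Real.sqrt I) (Real.sqrt_nonneg _) 4
      have h6 : Real.sqrt (I : ℝ) ^ 4 = (I : ℝ) ^ 2 := by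
        calc Real.sqrt (I : ℝ) ^ 4 = (Real.sqrt (I : ℝ) ^ 2) ^ 2 := by ring
          _ = (I : ℝ) ^ 2 := by rw [Real.sq_sqrt hI0.le]
      rw [h6] at h5
      have h7 : ((Nat.factorial 4 : ℕ) : ℝ) = 24 := by norm_num [Nat.factorial]
      rw [h7] at h5
      rw [Real.exp_neg, inv_eq_one_div, div_le_div_iff₀ (Real.exp_pos _) (by positivity)]
      rw [div_le_iff₀ (by norm_num)] at h5
      linarith
    calc μ (bad I) = ENNReal.ofReal (μ.real (bad I)) := by rw [ofReal_measureReal]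
      _ ≤ ENNReal.ofReal (24 / (I : ℝ) ^ 2) := ENNReal.ofReal_le_ofReal (h1.trans h3)
  -- Borel-Cantelli
  have hsum : ∑' j, μ (bad (i₀ + j)) ≠ ⊤ := by
    have h1 : ∀ j, μ (bad (i₀ + j)) ≤ ENNReal.ofReal (24 * (1 / ((j + i₀ : ℕ) : ℝ) ^ 2)) := by
      intro j
      refine (hbound (i₀ + j) (Nat.le_add_right _ _)).trans (le_of_eq ?_)
      rw [add_comm i₀ j]
      congr 1
      ring
    have h2 : Summable fun j : ℕ => 24 * (1 / ((j + i₀ : ℕ) : ℝ) ^ 2) := by
      refine Summable.mul_left 24 ?_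
      exact (summable_nat_add_iff (f := fun n : ℕ => 1 / ((n : ℕ) : ℝ) ^ 2) i₀).2
        (Real.summable_one_div_nat_pow.2 (by norm_num))
    refine ne_top_of_le_ne_top ?_ (ENNReal.tsum_le_tsum h1)
    rw [← ENNReal.ofReal_tsum_of_nonneg (fun j => by positivity) h2]
    exact ENNReal.ofReal_ne_top
  filter_upwards [ae_eventually_notMem hsum] with ω hω
  obtain ⟨j₀, hj₀⟩ := eventually_atTop.1 hω
  refine eventually_atTop.2 ⟨i₀ + j₀, fun m hm => ?_⟩
  have h1 := hj₀ (m - i₀) (by omega)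
  have h2 : i₀ + (m - i₀) = m := by omega
  rw [h2, hbad] at h1
  simp only [Set.mem_ofPred_eq] at h1
  push Not at h1
  obtain ⟨t, ht, h3⟩ := h1
  have hm8 : I0 ≤ m := by
    have := le_max_right (max (max i₁ i₂) (4 * b)) I0
    omega
  obtain ⟨_, _, _, h4, h5⟩ := (hJ m hm8).1 t ht
  exact ⟨n m t, h4, h5 (fun i => Z i ω) h3⟩

theorem perturbed_unbounded [IsProbabilityMeasure μ] {h C : ℕ} (hh : 2 ≤ h)
    (α : ℕ → ℕ) (hα : StrictMono α) (hC : ∀ i, α i ≤ C * (i + 1) ^ h)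
    (Z : ℕ → Ω → ℕ) (hZ : ∀ i, Measurable (Z i)) (hind : iIndepFun Z μ)
    (hpr : ∀ z : ℕ, ∀ ε : ℝ, 0 < ε → ∀ᶠ i : ℕ in atTop,
      (i : ℝ) ^ (-ε) ≤ μ.real {ω | Z i ω = z}) :
    ∀ᵐ ω ∂μ, ∀ K : ℕ, ∃ n, K < rep (Set.range fun i => α i + Z i ω) h n := by
  have main : ∀ K : ℕ, ∀ᵐ ω ∂μ, ∀ᶠ m : ℕ in atTop, ∃ n ≥ m,
      K + 1 ≤ rep (Set.range fun i => α i + Z i ω) h n := by
    intro K
    refine perturbed hh (Nat.le_add_left 1 K) α hα hC Z hZ hind ?_
    have : ∀ᶠ i : ℕ in atTop, ∀ z ∈ range (width h (K + 1) C + 1),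
        (i : ℝ) ^ (-(1 / (4 * (h * (K + 1) : ℕ))) : ℝ) ≤ μ.real {ω | Z i ω = z} :=
      (Finset.eventually_all _).2 fun z _ => hpr z _ (by
        have : 0 < h * (K + 1) := Nat.mul_pos (by omega) (by omega)
        have h' : (0 : ℝ) < ((h * (K + 1) : ℕ) : ℝ) := by exact_mod_cast this
        positivity)
    filter_upwards [this] with i hi z hz
    exact hi z (mem_range.2 (by omega))
  filter_upwards [ae_all_iff.2 main] with ω hω K
  obtain ⟨m, n, _, hn⟩ := (hω K).exists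
  exact ⟨n, by omega⟩

/-- an asymptotic basis of order `h` is infinite, with elements `O(i ^ h)` -/
theorem basis_growth {h : ℕ} {A : Set ℕ} {N : ℕ} (hA : ∀ n ≥ N, 1 ≤ rep A h n) :
    A.Infinite ∧ ∀ i, Nat.nth (fun a => a ∈ A) i ≤ (N + 1) * (i + 1) ^ h := by
  classical
  -- a finite set `S` containing all elements of `A` below `y` has at least `(y - N) ^ (1 / h)` elements
  have key : ∀ (S : Finset ℕ) (y : ℕ), (∀ x ∈ A, x < y → x ∈ S) → y ≤ N + S.card ^ h := by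
    intro S y hS
    have h1 : Ico N y ⊆ (Fintype.piFinset fun _ : Fin h => S).image fun f => ∑ j, f j := by
      intro n hn
      rw [mem_Ico] at hn
      have h2 : {s : Multiset ℕ | Multiset.card s = h ∧ (∀ a ∈ s, a ∈ A) ∧ s.sum = n}.Nonempty := by
        have h3 : 1 ≤ rep A h n := hA n hn.1
        rw [rep] at h3
        exact Set.nonempty_of_ncard_ne_zero (by omega)
      obtain ⟨s, hs1, hs2, hs3⟩ := h2
      rw [mem_image]
      have hl : s.toList.length = h := by rw [Multiset.length_toList, hs1]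
      refine ⟨fun j => s.toList.get (j.cast hl.symm), ?_, ?_⟩
      · rw [Fintype.mem_piFinset]
        intro j
        have h4 : s.toList.get (j.cast hl.symm) ∈ s := by
          rw [← Multiset.mem_toList]
          exact List.get_mem _ _
        refine hS _ (hs2 _ h4) ?_
        have h5 := Multiset.single_le_sum (fun x _ => Nat.zero_le x) _ h4
        omega
      · rw [← hs3, ← Multiset.sum_toList s, ← Fin.sum_univ_getElem]
        exact Fintype.sum_equiv (finCongr hl.symm) _ _ fun j => rfl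
    have h2 := card_le_card h1
    rw [Nat.card_Ico] at h2
    have h3 := h2.trans card_image_le
    rw [Fintype.card_piFinset] at h3
    simp only [prod_const, card_univ, Fintype.card_fin] at h3
    omega
  have hinf : A.Infinite := by
    intro hfin
    have h1 := key hfin.toFinset (N + hfin.toFinset.card ^ h + 1) (fun x hx _ => by
      rwa [Set.Finite.mem_toFinset])
    omega
  refine ⟨hinf, fun i => ?_⟩
  have h1 := key ((range i).image (Nat.nth fun a => a ∈ A)) (Nat.nth (fun a => a ∈ A) i)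
    (fun x hx hxi => by
      rw [mem_image]
      refine ⟨Nat.count (fun a => a ∈ A) x, ?_, Nat.nth_count hx⟩
      rw [mem_range]
      by_contra hcon
      push Not at hcon
      have h2 : Nat.nth (fun a => a ∈ A) i ≤
          Nat.nth (fun a => a ∈ A) (Nat.count (fun a => a ∈ A) x) :=
        (Nat.nth_strictMono hinf).monotone hcon
      exact absurd (h2.trans (Nat.nth_count (p := fun a => a ∈ A) hx).le) (not_le.2 hxi))
  refine h1.trans ?_
  have h2 : ((range i).image (Nat.nth fun a => a ∈ A)).card ≤ i :=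
    card_image_le.trans (by rw [card_range])
  have h3 := Nat.pow_le_pow_left h2 h
  have h4 : i ^ h ≤ (i + 1) ^ h := Nat.pow_le_pow_left (Nat.le_succ i) h
  have h5 : 1 ≤ (i + 1) ^ h := Nat.one_le_pow _ _ (by omega)
  nlinarith

end Pool.Agent.V7H5.RP
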